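import Pool.Agent.HM13.SR.Main

/-!
# Consistently, there is a star-Rothberger Isbell–Mrówka space of large cardinality

The answer to Q1 is positive.

* (1) There is a notion of forcing which preserves all cardinals and forces Martin's axiom for `ℵ₁`
  dense sets.
* (2) `MartinFor Om1` is Martin's axiom for `ℵ₁` dense sets.
* (3) If it holds, then there is a notion of forcing with the countable chain condition (adding
  `ℵ₁` random reals) all of whose conditions force that `ω₁` is preserved and that `CoreFor ω₁`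
  holds: there are `ℵ₁` functions in `ω^ω` such that no function agrees infinitely often with each
  of them, and no family of `ℵ₁` functions is dominating.
* (4) In ZFC, `CoreFor K` for a set `K` of cardinality `ℵ₁` implies the statement of Q1.
-/

set_option autoImplicit false

namespace Pool.Agent.Results.MP_a1c723_lc.ConsistentlyYes

open Cardinal Pool.Agent.HM13.SR

theorem result :
    -- (1) Martin's axiom for `ℵ₁` dense sets can be forced
    (∃ (P : Type) (_ : Preorder P), Nonempty P ∧ ∀ p : P,
      p ∈ Pool.Agent.Helper669.Forcing.CardinalsPreserved.{0, 0} P ∧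
      p ∈ Pool.Agent.W684.FM.OmegaOnePreserved P ∧
      p ∈ Pool.Agent.W684.FM.MartinHolds P Pool.Agent.W684.FM.Om1) ∧
    (Pool.Agent.W684.FM.MartinFor Pool.Agent.W684.FM.Om1 ↔
      Pool.Agent.W684.MartinAxiomAleph1) ∧
    -- (2) under Martin's axiom, `CoreFor ω₁` can be forced by a ccc notion of forcing
    (Pool.Agent.W684.FM.MartinFor Pool.Agent.W684.FM.Om1 →
      ∃ (P : Type) (_ : Preorder P), Nonempty P ∧
        (∀ A : Set P, (∀ p ∈ A, ∀ q ∈ A, p ≠ q → ¬ ∃ r, r ≤ p ∧ r ≤ q) → A.Countable) ∧
        ∀ p : P, p ∈ Pool.Agent.W684.FM.OmegaOnePreserved P ∧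
          p ∈ CoreHolds P Pool.Agent.W684.FM.Om1) ∧
    -- (3) `CoreFor ω₁` implies the statement of Q1
    (∀ K : Type, #K = ℵ₁ → CoreFor K →
      ∃ (κ : Cardinal.{0}) (𝒜 : Set (Set ℕ)), IsADFamily 𝒜 ∧ #𝒜 = κ ∧ covM ≤ κ ∧
        cofCountable κ.out = κ ∧ StarRothberger (Psi 𝒜)) :=
  ⟨Pool.Agent.W684.FM.exists_forcing Pool.Agent.W684.FM.Om1,
    Pool.Agent.W684.FM.martinFor_om1_iff, exists_forcing,
    fun _ hK h => q1_of_core hK h⟩

end Pool.Agent.Results.MP_a1c723_lc.ConsistentlyYes
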